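import Pool.Agent.Lib.MP_72af2c_an.Main

open MeasureTheory Pool.Agent.Lib.MP_72af2c_an

namespace Pool.Agent.Results.MP_72af2c_an.PartialData

/-- Q1. For 0 < s < 1, an open set Ω contained in a slab, uniformly elliptic bounded measurable
conductivities and a nonempty open set W in the exterior of Ω, equality of the exterior
Dirichlet-to-Neumann data on W forces the conductivities to agree almost everywhere in R^n. -/
theorem result (n : ℕ) (hn : 1 ≤ n) (s : ℝ) (hs0 : 0 < s) (hs1 : s < 1)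
    (Ω : Set (Rn n)) (_hΩopen : IsOpen Ω)
    (hΩslab : ∃ (e : Rn n) (c r : ℝ), ‖e‖ = 1 ∧ ∀ x ∈ Ω, |inner ℝ x e - c| ≤ r)
    (γ₁ γ₂ : Rn n → ℝ) (hγ₁ : UniformlyElliptic γ₁) (hγ₂ : UniformlyElliptic γ₂)
    (W : Set (Rn n)) (hWopen : IsOpen W) (hWne : W.Nonempty) (hWext : W ⊆ (closure Ω)ᶜ)
    (hDN : ∀ f g : Rn n → ℝ, IsTest W f → IsTest W g → dnMap s γ₁ Ω f g = dnMap s γ₂ Ω f g) :
    ∀ᵐ x ∂volume, γ₁ x = γ₂ x := by
  obtain ⟨e, c, r, he, hΩ⟩ := hΩslab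
  exact uniqueness hn hs0 hs1 he hΩ hγ₁ hγ₂ hWopen hWne hWext hDN

end Pool.Agent.Results.MP_72af2c_an.PartialData
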