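import Pool.Agent.Lib.MP_72af2c_an.Main

open MeasureTheory Pool.Agent.Lib.MP_72af2c_an

namespace Pool.Agent.Results.MP_72af2c_an.QTwoFullData

/-- Q2. For 0 < s < 1, an open set Ω contained in a slab and uniformly elliptic bounded measurable
conductivities, equality of the full exterior Dirichlet-to-Neumann maps forces the conductivities
to agree almost everywhere in R^n. -/
theorem result (n : ℕ) (hn : 1 ≤ n) (s : ℝ) (hs0 : 0 < s) (hs1 : s < 1)
    (Ω : Set (Rn n)) (_hΩopen : IsOpen Ω)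
    (hΩslab : ∃ (e : Rn n) (c r : ℝ), ‖e‖ = 1 ∧ ∀ x ∈ Ω, |inner ℝ x e - c| ≤ r)
    (γ₁ γ₂ : Rn n → ℝ) (hγ₁ : UniformlyElliptic γ₁) (hγ₂ : UniformlyElliptic γ₂)
    (hDN : ∀ f g : Rn n → ℝ, InHs s f → InHs s g → dnMap s γ₁ Ω f g = dnMap s γ₂ Ω f g) :
    ∀ᵐ x ∂volume, γ₁ x = γ₂ x := by
  obtain ⟨e, c, r, he, hΩ⟩ := hΩslab
  refine uniqueness hn hs0 hs1 he hΩ hγ₁ hγ₂ (W := (closure Ω)ᶜ) isClosed_closure.isOpen_compl
    ⟨(c + |r| + 1) • e, fun hx => ?_⟩ subset_rfl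
    fun f g hf hg => hDN f g (hf.inHs hn hs0 hs1) (hg.inHs hn hs0 hs1)
  have hcl : IsClosed {x : Rn n | |inner ℝ x e - c| ≤ r} :=
    isClosed_le (by fun_prop) continuous_const
  have h1 : |inner ℝ ((c + |r| + 1) • e) e - c| ≤ r := closure_minimal hΩ hcl hx
  rw [real_inner_smul_left, real_inner_self_eq_norm_sq, he] at h1
  have h2 := le_abs_self ((c + |r| + 1) * 1 ^ 2 - c)
  have h3 := le_abs_self r
  linarith

end Pool.Agent.Results.MP_72af2c_an.QTwoFullData
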